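import Mathlib

set_option autoImplicit false

/-!
Counting permutations by their descent word.
-/

namespace Pool.Agent.Q284.DD

open Finset

/-- descent word of a permutation -/
def word {n : ℕ} (w : Equiv.Perm (Fin (n + 1))) : List Bool :=
  List.ofFn (fun i : Fin n => decide (w i.succ < w i.castSucc))

/-- `N k j P`: the number of ways to continue a permutation by `k` more entries, `j` of them
being below the current one, such that the word of the continuation satisfies `P`. -/
def N : ℕ → ℕ → (List Bool → Bool) → ℕ
  | 0, _, P => if P [] then 1 else 0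
  | k + 1, j, P => ∑ i ∈ range (k + 1), N k i (fun l => P (decide (i < j) :: l))

/-- prepend a first entry -/
noncomputable def mk {n : ℕ} (p : Fin (n + 1)) (e : Equiv.Perm (Fin n)) :
    Equiv.Perm (Fin (n + 1)) :=
  Equiv.ofBijective (Fin.cons p (fun i => p.succAbove (e i)) : Fin (n + 1) → Fin (n + 1)) (by
    apply Finite.injective_iff_bijective.1
    intro x y
    refine Fin.cases ?_ (fun x => ?_) x <;> refine Fin.cases ?_ (fun y => ?_) y
    · intro _; rfl
    · intro h
      rw [Fin.cons_zero, Fin.cons_succ] at h
      exact absurd h.symm (Fin.succAbove_ne _ _)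
    · intro h
      rw [Fin.cons_zero, Fin.cons_succ] at h
      exact absurd h (Fin.succAbove_ne _ _)
    · intro h
      rw [Fin.cons_succ, Fin.cons_succ] at h
      rw [e.injective (Fin.succAbove_right_injective h)])

@[simp] lemma mk_zero {n : ℕ} (p : Fin (n + 1)) (e : Equiv.Perm (Fin n)) : mk p e 0 = p := rfl

@[simp] lemma mk_succ {n : ℕ} (p : Fin (n + 1)) (e : Equiv.Perm (Fin n)) (i : Fin n) :
    mk p e i.succ = p.succAbove (e i) := rfl

lemma mk_bijective (n : ℕ) :
    Function.Bijective (fun x : Fin (n + 1) × Equiv.Perm (Fin n) => mk x.1 x.2) := by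
  rw [Fintype.bijective_iff_injective_and_card]
  constructor
  · rintro ⟨p, e⟩ ⟨q, f⟩ h
    have h0 : p = q := by
      have := congrArg (fun w => w 0) h
      simpa using this
    subst h0
    congr 1
    ext i
    have := congrArg (fun w : Equiv.Perm (Fin (n + 1)) => w i.succ) h
    simp only [mk_succ] at this
    rw [Fin.succAbove_right_injective this]
  · rw [Fintype.card_prod, Fintype.card_perm, Fintype.card_perm, Fintype.card_fin,
      Fintype.card_fin, Nat.factorial_succ]

lemma word_mk {n : ℕ} (p : Fin (n + 2)) (e : Equiv.Perm (Fin (n + 1))) :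
    word (mk p e) = decide ((e 0 : ℕ) < (p : ℕ)) :: word e := by
  unfold word
  rw [List.ofFn_succ]
  congr 1
  · have h : (mk p e) (Fin.succ 0) = p.succAbove (e 0) := rfl
    have h2 : (mk p e) (Fin.castSucc 0) = p := rfl
    rw [h, h2]
    apply decide_eq_decide.2
    rw [Fin.succAbove_lt_iff_castSucc_lt, Fin.lt_def, Fin.val_castSucc]
  · congr 1
    funext i
    have h : (mk p e) (Fin.succ i.succ) = p.succAbove (e i.succ) := rfl
    have h2 : (mk p e) (Fin.castSucc i.succ) = p.succAbove (e i.castSucc) := rfl
    rw [h, h2]
    apply decide_eq_decide.2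
    exact Fin.succAbove_lt_succAbove_iff

theorem card_eq_N (n : ℕ) : ∀ (j : Fin (n + 1)) (P : List Bool → Bool),
    (univ.filter (fun w : Equiv.Perm (Fin (n + 1)) => w 0 = j ∧ P (word w) = true)).card
      = N n j P := by
  induction n with
  | zero =>
    intro j P
    have hj : ∀ w : Equiv.Perm (Fin 1), w 0 = j := fun w => Subsingleton.elim _ _
    have hw : ∀ w : Equiv.Perm (Fin 1), word w = [] := fun w => rfl
    simp only [hj, hw, true_and, N]
    split_ifs with h
    · rw [Finset.filter_true_of_mem (fun _ _ => h), Finset.card_univ]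
      rfl
    · rw [Finset.card_eq_zero, Finset.filter_eq_empty_iff]
      intro _ _
      exact h
  | succ n ih =>
    intro j P
    -- transport along `mk`
    have h1 : (univ.filter (fun w : Equiv.Perm (Fin (n + 2)) =>
        w 0 = j ∧ P (word w) = true)).card =
        (univ.filter (fun e : Equiv.Perm (Fin (n + 1)) =>
          P (decide ((e 0 : ℕ) < (j : ℕ)) :: word e) = true)).card := by
      symm
      refine Finset.card_bij (fun e _ => mk j e) ?_ ?_ ?_
      · intro e he
        rw [mem_filter] at he ⊢
        refine ⟨mem_univ _, rfl, ?_⟩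
        rw [word_mk]
        exact he.2
      · intro e _ f _ h
        have := (mk_bijective (n + 1)).1 (a₁ := (j, e)) (a₂ := (j, f)) h
        exact (Prod.ext_iff.1 this).2
      · intro w hw
        rw [mem_filter] at hw
        obtain ⟨⟨p, e⟩, he⟩ := (mk_bijective (n + 1)).2 w
        simp only at he
        subst he
        obtain ⟨-, hw1, hw2⟩ := hw
        rw [mk_zero] at hw1
        subst hw1
        refine ⟨e, ?_, rfl⟩
        rw [mem_filter]
        refine ⟨mem_univ _, ?_⟩
        rw [word_mk] at hw2
        exact hw2
    rw [h1]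
    -- split according to `e 0`
    have h2 : (univ.filter (fun e : Equiv.Perm (Fin (n + 1)) =>
          P (decide ((e 0 : ℕ) < (j : ℕ)) :: word e) = true)) =
        univ.biUnion (fun i : Fin (n + 1) => univ.filter (fun e : Equiv.Perm (Fin (n + 1)) =>
          e 0 = i ∧ P (decide ((i : ℕ) < (j : ℕ)) :: word e) = true)) := by
      ext e
      simp only [mem_filter, mem_univ, true_and, mem_biUnion]
      constructor
      · intro h
        exact ⟨e 0, rfl, h⟩
      · rintro ⟨i, hi, h⟩
        rw [hi]
        exact h
    rw [h2, Finset.card_biUnion]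
    · rw [N, Finset.sum_range]
      refine Finset.sum_congr rfl fun i _ => ?_
      exact ih i (fun l => P (decide ((i : ℕ) < (j : ℕ)) :: l))
    · intro x _ y _ hxy
      rw [Function.onFun, Finset.disjoint_left]
      intro e he he'
      rw [mem_filter] at he he'
      exact hxy (he.2.1.symm.trans he'.2.1)

theorem card_total (n : ℕ) (P : List Bool → Bool) :
    (univ.filter (fun w : Equiv.Perm (Fin (n + 1)) => P (word w) = true)).card
      = ∑ j ∈ range (n + 1), N n j P := by
  have h2 : (univ.filter (fun e : Equiv.Perm (Fin (n + 1)) => P (word e) = true)) =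
      univ.biUnion (fun i : Fin (n + 1) => univ.filter (fun e : Equiv.Perm (Fin (n + 1)) =>
        e 0 = i ∧ P (word e) = true)) := by
    ext e
    simp
  rw [h2, Finset.card_biUnion]
  · rw [Finset.sum_range]
    refine Finset.sum_congr rfl fun i _ => ?_
    exact card_eq_N n i P
  · intro x _ y _ hxy
    rw [Function.onFun, Finset.disjoint_left]
    intro e he he'
    rw [mem_filter] at he he'
    exact hxy (he.2.1.symm.trans he'.2.1)

/-- `i` is a double descent of `w` (positions are numbered from 1). -/
def IsDD {n : ℕ} (w : Equiv.Perm (Fin n)) (i : ℕ) : Prop :=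
  ∃ (_ : 2 ≤ i) (_ : i + 1 ≤ n), w ⟨i - 1, by omega⟩ < w ⟨i - 2, by omega⟩ ∧
    w ⟨i, by omega⟩ < w ⟨i - 1, by omega⟩

/-- the automaton reading a descent word, with last letter `s` and position `p` -/
def chk (I : Finset ℕ) : Bool → ℕ → List Bool → Bool
  | _, p, [] => decide (∀ i ∈ I, i < p)
  | s, p, d :: l => decide ((s = true ∧ d = true) ↔ p ∈ I) && chk I d (p + 1) l

lemma chk_iff (I : Finset ℕ) (l : List Bool) : ∀ (s : Bool) (p : ℕ),
    chk I s p l = true ↔
      (∀ t < l.length, (((s :: l).getD t false = true ∧ l.getD t false = true) ↔ p + t ∈ I)) ∧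
        ∀ i ∈ I, i < p + l.length := by
  induction l with
  | nil =>
    intro s p
    simp [chk]
  | cons d l ih =>
    intro s p
    rw [chk, Bool.and_eq_true, ih, decide_eq_true_eq]
    constructor
    · rintro ⟨h1, h2, h3⟩
      constructor
      · intro t ht
        rcases t with _ | t
        · simpa using h1
        · have := h2 t (by simpa using ht)
          rw [show p + (t + 1) = p + 1 + t by ring]
          simpa using this
      · intro i hi
        have := h3 i hi
        rw [List.length_cons]
        omega
    · rintro ⟨h1, h2⟩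
      refine ⟨?_, ?_, ?_⟩
      · have := h1 0 (by simp)
        simpa using this
      · intro t ht
        have := h1 (t + 1) (by simpa using ht)
        rw [show p + (t + 1) = p + 1 + t by ring] at this
        simpa using this
      · intro i hi
        have := h2 i hi
        rw [List.length_cons] at this
        omega

lemma word_length {n : ℕ} (w : Equiv.Perm (Fin (n + 1))) : (word w).length = n := by
  simp [word]

lemma word_getD {n : ℕ} (w : Equiv.Perm (Fin (n + 1))) (t : ℕ) (ht : t < n) :
    (word w).getD t false = decide (w ⟨t + 1, by omega⟩ < w ⟨t, by omega⟩) := by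
  rw [List.getD_eq_getElem _ _ (by rw [word_length]; exact ht)]
  simp [word]

lemma chk_word_iff {n : ℕ} (I : Finset ℕ) (w : Equiv.Perm (Fin (n + 1))) :
    (0 ∉ I ∧ chk I false 1 (word w) = true) ↔ ∀ i, IsDD w i ↔ i ∈ I := by
  rw [chk_iff, word_length]
  constructor
  · rintro ⟨h0, h1, h2⟩ i
    constructor
    · rintro ⟨ha, hb, hc, hd⟩
      obtain ⟨t, rfl⟩ : ∃ t, i = t + 2 := ⟨i - 2, by omega⟩
      have h := h1 (t + 1) (by omega)
      rw [show 1 + (t + 1) = t + 2 by ring] at h
      rw [← h]
      rw [List.getD_cons_succ, word_getD w t (by omega), word_getD w (t + 1) (by omega)]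
      simp only [decide_eq_true_eq]
      exact ⟨hc, hd⟩
    · intro hi
      have hi2 := h2 i hi
      have hi0 : i ≠ 0 := fun h => h0 (h ▸ hi)
      by_cases hi1 : i = 1
      · exfalso
        subst hi1
        have := (h1 0 (by omega)).2 (by simpa using hi)
        simp at this
      · obtain ⟨t, rfl⟩ : ∃ t, i = t + 2 := ⟨i - 2, by omega⟩
        have h := (h1 (t + 1) (by omega)).2 (by rw [show 1 + (t + 1) = t + 2 by ring]; exact hi)
        rw [List.getD_cons_succ, word_getD w t (by omega), word_getD w (t + 1) (by omega)] at h
        simp only [decide_eq_true_eq] at h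
        exact ⟨by omega, by omega, h.1, h.2⟩
  · intro h
    refine ⟨?_, ?_, ?_⟩
    · intro h0
      obtain ⟨ha, -⟩ := (h 0).2 h0
      omega
    · intro t ht
      rcases t with _ | t
      · simp only [List.getD_cons_zero, Bool.false_eq_true, false_and, false_iff]
        intro h1
        obtain ⟨ha, -⟩ := (h 1).2 (by simpa using h1)
        omega
      · rw [show 1 + (t + 1) = t + 2 by ring, ← h (t + 2)]
        rw [List.getD_cons_succ, word_getD w t (by omega), word_getD w (t + 1) (by omega)]
        simp only [decide_eq_true_eq]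
        constructor
        · intro hh
          exact ⟨by omega, by omega, hh.1, hh.2⟩
        · rintro ⟨_, _, hh⟩
          exact ⟨hh.1, hh.2⟩
    · intro i hi
      obtain ⟨_, hb, -⟩ := (h i).2 hi
      omega

/-- the number of permutations of `[n]` with double descent set `I` -/
noncomputable def dd (I : Finset ℕ) (n : ℕ) : ℕ :=
  Nat.card {w : Equiv.Perm (Fin n) // ∀ i, IsDD w i ↔ i ∈ I}

theorem dd_succ (I : Finset ℕ) (n : ℕ) :
    dd I (n + 1) = if 0 ∈ I then 0 else ∑ j ∈ range (n + 1), N n j (chk I false 1) := by
  classical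
  unfold dd
  rw [Nat.card_eq_fintype_card, Fintype.card_subtype]
  split_ifs with h
  · rw [Finset.card_eq_zero, Finset.filter_eq_empty_iff]
    intro w _ hw
    rw [← chk_word_iff] at hw
    exact hw.1 h
  · rw [← card_total]
    congr 1
    ext w
    rw [mem_filter, mem_filter, ← chk_word_iff]
    simp [h]

end Pool.Agent.Q284.DD
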