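import Mathlib
import Pool.Agent.Q284.DD.Basic

set_option autoImplicit false

/-!
Expansion of the continuation counts without double descents.
-/

namespace Pool.Agent.Q284.DD

open Finset

lemma N_false (k : ℕ) : ∀ j, N k j (fun _ => false) = 0 := by
  induction k with
  | zero => intro j; simp [N]
  | succ k ih => intro j; simp [N, ih]

lemma N_and (b : Bool) (k j : ℕ) (P : List Bool → Bool) :
    N k j (fun l => b && P l) = if b = true then N k j P else 0 := by
  cases b
  · simp [N_false]
  · simp

/-- the automaton for words without double descent -/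
def chk0 : Bool → List Bool → Bool
  | _, [] => true
  | s, d :: l => !(s && d) && chk0 d l

lemma chk_eq_chk0 (I : Finset ℕ) (l : List Bool) : ∀ (s : Bool) (p : ℕ), (∀ i ∈ I, i < p) →
    chk I s p l = chk0 s l := by
  induction l with
  | nil =>
    intro s p h
    simp only [chk, chk0, decide_eq_true_eq]
    exact h
  | cons d l ih =>
    intro s p h
    rw [chk, chk0, ih d (p + 1) (fun i hi => (h i hi).trans (Nat.lt_succ_self p))]
    congr 1
    have hp : p ∉ I := fun hp => lt_irrefl _ (h p hp)
    simp only [hp, iff_false]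
    cases s <;> cases d <;> simp

/-- Sum splitting. -/
lemma sum_split {M : Type*} [AddCommMonoid M] (x y : ℕ → M) (k j : ℕ) (h : j ≤ k) :
    ∑ i ∈ range k, (if i < j then x i else y i) =
      ∑ i ∈ range j, x i + ∑ i ∈ Ico j k, y i := by
  rw [← Finset.sum_range_add_sum_Ico _ h]
  congr 1
  · refine Finset.sum_congr rfl fun i hi => ?_
    rw [if_pos (Finset.mem_range.1 hi)]
  · refine Finset.sum_congr rfl fun i hi => ?_
    rw [if_neg (not_lt.2 (Finset.mem_Ico.1 hi).1)]

/-- real valued counts -/
noncomputable def Ph (P : List Bool → Bool) (k j : ℕ) : ℝ := (N k j P : ℝ)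

lemma Ph_nonneg (P : List Bool → Bool) (k j : ℕ) : 0 ≤ Ph P k j := Nat.cast_nonneg _

/-- general recursion of the automaton counts -/
lemma Ph_chk_succ (I : Finset ℕ) (s : Bool) (p k j : ℕ) (h : j ≤ k + 1) :
    Ph (chk I s p) (k + 1) j =
      (if (s = true ↔ p ∈ I) then ∑ i ∈ range j, Ph (chk I true (p + 1)) k i else 0) +
      (if p ∈ I then 0 else ∑ i ∈ Ico j (k + 1), Ph (chk I false (p + 1)) k i) := by
  unfold Ph
  rw [N]
  have h1 : ∀ i ∈ range (k + 1), N k i (fun l => chk I s p (decide (i < j) :: l)) =
      if i < j then (if (s = true ↔ p ∈ I) then N k i (chk I true (p + 1)) else 0)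
      else (if p ∈ I then 0 else N k i (chk I false (p + 1))) := by
    intro i _
    simp only [chk]
    by_cases hij : i < j
    · rw [if_pos hij]
      simp only [hij, decide_true, and_true]
      rw [N_and]
      by_cases hp : p ∈ I <;> cases s <;> simp [hp]
    · rw [if_neg hij]
      simp only [hij, decide_false, Bool.false_eq_true, and_false, false_iff]
      rw [N_and]
      by_cases hp : p ∈ I <;> simp [hp]
  rw [Finset.sum_congr rfl h1, sum_split _ _ _ _ h]
  push_cast
  congr 1
  · split_ifs <;> simp
  · split_ifs <;> simp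

/-- counts without double descents -/
noncomputable def E (s : Bool) (k j : ℕ) : ℝ := Ph (chk0 s) k j

lemma E_nonneg (s : Bool) (k j : ℕ) : 0 ≤ E s k j := Ph_nonneg _ _ _

lemma E_zero (s : Bool) (j : ℕ) : E s 0 j = 1 := by
  simp [E, Ph, N, chk0]

lemma chk_empty (s : Bool) (p : ℕ) : chk ∅ s p = chk0 s := by
  funext l
  exact chk_eq_chk0 ∅ l s p (by simp)

lemma E_true_succ (k j : ℕ) (h : j ≤ k + 1) :
    E true (k + 1) j = ∑ i ∈ Ico j (k + 1), E false k i := by
  have := Ph_chk_succ ∅ true 0 k j h
  simp only [chk_empty] at this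
  simpa [E] using this

lemma E_false_succ (k j : ℕ) (h : j ≤ k + 1) :
    E false (k + 1) j = ∑ i ∈ range j, E true k i + ∑ i ∈ Ico j (k + 1), E false k i := by
  have := Ph_chk_succ ∅ false 0 k j h
  simp only [chk_empty] at this
  simpa [E] using this

/-- the number of permutations of `[k]` without double descents -/
noncomputable def T (k : ℕ) : ℝ := E true k 0

lemma E_false_zero (k : ℕ) : E false k 0 = T k := by
  rcases k with _ | k
  · rw [T, E_zero, E_zero]
  · rw [T, E_true_succ k 0 (Nat.zero_le _), E_false_succ k 0 (Nat.zero_le _)]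
    simp

lemma T_zero : T 0 = 1 := E_zero _ _

lemma T_pos (k : ℕ) : 0 < T k := by
  induction k with
  | zero => rw [T_zero]; exact one_pos
  | succ k ih =>
    rw [T, E_true_succ k 0 (Nat.zero_le _)]
    have h : (0 : ℕ) ∈ Ico 0 (k + 1) := by simp
    have := Finset.single_le_sum (f := fun i => E false k i) (fun i _ => E_nonneg _ _ _) h
    simp only [E_false_zero] at this
    linarith

/-- coefficients -/
def eps (e : ℕ) : ℝ := if e % 3 = 0 then 1 else if e % 3 = 1 then -1 else 0

/-- coefficients -/
def dlt (e : ℕ) : ℝ := if e % 3 = 0 then 1 else if e % 3 = 1 then 0 else -1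

lemma eps_succ (e : ℕ) : eps (e + 1) = - dlt e := by
  unfold eps dlt
  rcases (show e % 3 = 0 ∨ e % 3 = 1 ∨ e % 3 = 2 by omega) with h | h | h
  · rw [if_neg (by omega), if_pos (by omega), if_pos h]
  · rw [if_neg (by omega), if_neg (by omega), if_neg (by omega), if_pos h]; simp
  · rw [if_pos (by omega), if_neg (by omega), if_neg (by omega)]; simp

lemma dlt_succ (e : ℕ) : dlt (e + 1) = eps e - dlt e := by
  unfold eps dlt
  rcases (show e % 3 = 0 ∨ e % 3 = 1 ∨ e % 3 = 2 by omega) with h | h | h
  · rw [if_neg (by omega), if_pos (by omega), if_pos h, if_pos h]; simp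
  · rw [if_neg (by omega), if_neg (by omega), if_neg (by omega), if_pos (by omega),
      if_neg (by omega), if_pos (by omega)]; simp
  · rw [if_pos (by omega), if_neg (by omega), if_neg (by omega), if_neg (by omega),
      if_neg (by omega)]; simp

lemma pascal_sum (c : ℕ → ℝ) (j k : ℕ) :
    ∑ e ∈ range (j + 2), c e * ((j + 1).choose e : ℝ) * T (k + 1 - e) =
      ∑ e ∈ range (j + 1), c e * (j.choose e : ℝ) * T (k + 1 - e) +
      ∑ e ∈ range (j + 1), c (e + 1) * (j.choose e : ℝ) * T (k - e) := by
  rw [Finset.sum_range_succ']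
  have h1 : ∑ e ∈ range (j + 1), c e * (j.choose e : ℝ) * T (k + 1 - e) =
      ∑ e ∈ range (j + 1), c (e + 1) * (j.choose (e + 1) : ℝ) * T (k - e) +
        c 0 * (j.choose 0 : ℝ) * T (k + 1 - 0) := by
    rw [Finset.sum_range_succ' , Finset.sum_range_succ]
    have : j.choose (j + 1) = 0 := Nat.choose_succ_self j
    rw [this]
    simp
  rw [h1]
  have h2 : ∀ e ∈ range (j + 1), c (e + 1) * ((j + 1).choose (e + 1) : ℝ) * T (k + 1 - (e + 1)) =
      c (e + 1) * (j.choose (e + 1) : ℝ) * T (k - e) + c (e + 1) * (j.choose e : ℝ) * T (k - e) := by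
    intro e _
    rw [Nat.choose_succ_succ, Nat.add_sub_add_right]
    push_cast
    ring
  rw [Finset.sum_congr rfl h2, Finset.sum_add_distrib]
  simp only [Nat.choose_zero_right]
  ring

theorem E_expand (j : ℕ) : ∀ k, j ≤ k →
    E true k j = ∑ e ∈ range (j + 1), eps e * (j.choose e : ℝ) * T (k - e) ∧
    E false k j = ∑ e ∈ range (j + 1), dlt e * (j.choose e : ℝ) * T (k - e) := by
  induction j with
  | zero =>
    intro k _
    constructor
    · simp [eps, T]
    · simp [dlt, E_false_zero]
  | succ j ih =>
    intro k hk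
    obtain ⟨k, rfl⟩ : ∃ k', k = k' + 1 := ⟨k - 1, by omega⟩
    obtain ⟨h1, h2⟩ := ih (k + 1) (by omega)
    obtain ⟨h3, h4⟩ := ih k (by omega)
    have e1 : E true (k + 1) (j + 1) = E true (k + 1) j - E false k j := by
      rw [E_true_succ k (j + 1) (by omega), E_true_succ k j (by omega),
        Finset.sum_eq_sum_Ico_succ_bot (by omega : j < k + 1)]
      ring
    have e2 : E false (k + 1) (j + 1) = E false (k + 1) j + E true k j - E false k j := by
      rw [E_false_succ k (j + 1) (by omega), E_false_succ k j (by omega),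
        Finset.sum_eq_sum_Ico_succ_bot (by omega : j < k + 1), Finset.sum_range_succ]
      ring
    constructor
    · rw [e1, h1, h4, pascal_sum, sub_eq_add_neg, ← Finset.sum_neg_distrib]
      congr 1
      refine Finset.sum_congr rfl fun e _ => ?_
      rw [eps_succ]
      ring
    · rw [e2, h2, h3, h4, pascal_sum, add_sub_assoc, ← Finset.sum_sub_distrib]
      congr 1
      refine Finset.sum_congr rfl fun e _ => ?_
      rw [dlt_succ]
      ring

lemma E_true_self (k : ℕ) : E true (k + 1) (k + 1) = 0 := by
  rw [E_true_succ k (k + 1) le_rfl]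
  simp

/-- normalized counts -/
noncomputable def a (k : ℕ) : ℝ := T k / k.factorial

lemma a_pos (k : ℕ) : 0 < a k := div_pos (T_pos k) (by positivity)

lemma a_zero : a 0 = 1 := by simp [a, T_zero]

lemma T_eq (k : ℕ) : T k = k.factorial * a k := by
  unfold a
  have : (k.factorial : ℝ) ≠ 0 := by positivity
  field_simp

/-- normalized coefficients -/
noncomputable def q (e : ℕ) : ℝ := eps e / e.factorial

theorem rec_a (k : ℕ) : ∑ e ∈ range (k + 2), q e * a (k + 1 - e) = 0 := by
  have h := (E_expand (k + 1) (k + 1) le_rfl).1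
  rw [E_true_self] at h
  have h2 : ∀ e ∈ range (k + 2), eps e * ((k + 1).choose e : ℝ) * T (k + 1 - e) =
      (k + 1).factorial * (q e * a (k + 1 - e)) := by
    intro e he
    have he' : e ≤ k + 1 := by
      have := Finset.mem_range.1 he
      omega
    rw [T_eq, q]
    have h3 : ((k + 1).factorial : ℝ) = (k + 1).choose e * e.factorial * (k + 1 - e).factorial := by
      exact_mod_cast (Nat.choose_mul_factorial_mul_factorial he').symm
    rw [h3]
    have : (e.factorial : ℝ) ≠ 0 := by positivity
    field_simp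
  rw [Finset.sum_congr rfl h2, ← Finset.mul_sum] at h
  have h4 : ((k + 1).factorial : ℝ) ≠ 0 := by positivity
  exact (mul_eq_zero.1 h.symm).resolve_left h4

lemma abs_eps (e : ℕ) : |eps e| ≤ 1 := by
  unfold eps; split_ifs <;> simp

lemma abs_dlt (e : ℕ) : |dlt e| ≤ 1 := by
  unfold dlt; split_ifs <;> simp

lemma abs_q (e : ℕ) : |q e| ≤ 1 / e.factorial := by
  unfold q
  rw [abs_div, abs_of_pos (show (0 : ℝ) < e.factorial by positivity)]
  exact div_le_div_of_nonneg_right (abs_eps e) (by positivity)

end Pool.Agent.Q284.DD
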