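import Mathlib
import Pool.Agent.Q284.DD.Expand

set_option autoImplicit false

/-!
Asymptotics of the number of permutations without double descents: `a n * s ^ n` converges to a
positive limit.
-/

namespace Pool.Agent.Q284.DD

open Finset Filter Topology

/-- A renewal type lemma with absolutely small kernel. -/
theorem renewal (w G : ℕ → ℝ) (hG0 : G 0 = 1) (θ : ℝ) (hθ : θ < 1)
    (hG : ∀ M, ∑ e ∈ range M, |G (e + 1)| ≤ θ)
    (hrec : PowerSeries.mk G * (PowerSeries.mk w * (1 - PowerSeries.X)) = 1)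
    (hw : ∀ n, 0 < w n) : ∃ ℓ : ℝ, 0 < ℓ ∧ Tendsto w atTop (𝓝 ℓ) := by
  set Γ : PowerSeries ℝ := PowerSeries.mk w * (1 - PowerSeries.X) with hΓ
  set γ : ℕ → ℝ := fun n => PowerSeries.coeff n Γ with hγ
  have hγ0 : γ 0 = w 0 := by simp [hγ, hΓ]
  have hγs : ∀ n, γ (n + 1) = w (n + 1) - w n := by
    intro n
    simp only [hγ, hΓ, mul_sub, mul_one, map_sub, PowerSeries.coeff_mk,
      PowerSeries.coeff_succ_mul_X]
  have hconv : ∀ n, ∑ p ∈ antidiagonal n, G p.1 * γ p.2 = if n = 0 then 1 else 0 := by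
    intro n
    have h := congrArg (PowerSeries.coeff n) hrec
    rw [PowerSeries.coeff_mul, PowerSeries.coeff_one] at h
    rw [← h]
    refine Finset.sum_congr rfl fun p _ => ?_
    rw [PowerSeries.coeff_mk]
  have hγ01 : γ 0 = 1 := by
    have := hconv 0
    simpa [hG0] using this
  have hstep : ∀ n, |γ (n + 1)| ≤ ∑ e ∈ range (n + 1), |G (e + 1)| * |γ (n - e)| := by
    intro n
    have h := hconv (n + 1)
    rw [Finset.Nat.sum_antidiagonal_succ, if_neg (Nat.succ_ne_zero n), hG0, one_mul] at h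
    have h2 : γ (n + 1) = - ∑ p ∈ antidiagonal n, G (p.1 + 1) * γ p.2 := by linarith
    rw [h2, abs_neg, Finset.Nat.sum_antidiagonal_eq_sum_range_succ_mk]
    refine (Finset.abs_sum_le_sum_abs _ _).trans (le_of_eq ?_)
    refine Finset.sum_congr rfl fun e _ => ?_
    rw [abs_mul]
  have hθ0 : 0 ≤ θ := by
    have := hG 0
    simpa using this
  have hS : ∀ M, ∑ n ∈ range (M + 1), |γ n| ≤ 1 / (1 - θ) := by
    intro M
    have h1 : ∑ n ∈ range (M + 1), |γ n| ≤ 1 + θ * ∑ n ∈ range (M + 1), |γ n| := by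
      rw [Finset.sum_range_succ', hγ01, abs_one, add_comm]
      have h2 : ∑ n ∈ range M, |γ (n + 1)| ≤
          ∑ n ∈ range M, ∑ e ∈ range (n + 1), |G (e + 1)| * |γ (n - e)| :=
        Finset.sum_le_sum fun n _ => hstep n
      have h3 := Finset.sum_range_diag_flip M (fun e m => |G (e + 1)| * |γ m|)
      have h4 : ∑ m ∈ range M, ∑ k ∈ range (M - m), |G (m + 1)| * |γ k| ≤
          ∑ m ∈ range M, |G (m + 1)| * ∑ n ∈ range (M + 1), |γ n| := by
        refine Finset.sum_le_sum fun m _ => ?_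
        rw [← Finset.mul_sum]
        refine mul_le_mul_of_nonneg_left ?_ (abs_nonneg _)
        refine Finset.sum_le_sum_of_subset_of_nonneg ?_ (fun _ _ _ => abs_nonneg _)
        intro x hx
        rw [Finset.mem_range] at hx ⊢
        omega
      rw [← Finset.sum_mul] at h4
      have h5 : (∑ m ∈ range M, |G (m + 1)|) * ∑ n ∈ range (M + 1), |γ n| ≤
          θ * ∑ n ∈ range (M + 1), |γ n| :=
        mul_le_mul_of_nonneg_right (hG M) (Finset.sum_nonneg fun _ _ => abs_nonneg _)
      have h6 : ∑ n ∈ range (M + 1), |γ n| = ∑ k ∈ range M, |γ (k + 1)| + 1 := by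
        rw [Finset.sum_range_succ', hγ01, abs_one]
      rw [h6] at h5 h4
      linarith
    rw [le_div_iff₀ (by linarith)]
    linarith
  have hγsum : Summable (fun n => |γ n|) := by
    apply summable_of_sum_range_le (c := 1 / (1 - θ)) (fun _ => abs_nonneg _)
    intro n
    refine (Finset.sum_le_sum_of_subset_of_nonneg ?_ (fun _ _ _ => abs_nonneg _)).trans (hS n)
    exact Finset.range_subset_range.2 (Nat.le_succ n)
  have hGsum : Summable (fun n => |G n|) := by
    rw [← summable_nat_add_iff 1]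
    exact summable_of_sum_range_le (fun _ => abs_nonneg _) hG
  have hw' : ∀ n, w n = ∑ k ∈ range (n + 1), γ k := by
    intro n
    induction n with
    | zero => simp [hγ0]
    | succ n ih => rw [Finset.sum_range_succ, ← ih, hγs]; ring
  have hlim : Tendsto w atTop (𝓝 (∑' n, γ n)) := by
    have h1 : Summable γ := hγsum.of_abs
    have h2 := (tendsto_add_atTop_iff_nat 1).2 h1.hasSum.tendsto_sum_nat
    refine h2.congr fun n => ?_
    rw [hw']
  refine ⟨_, ?_, hlim⟩
  have hge : 0 ≤ ∑' n, γ n := ge_of_tendsto' hlim fun n => (hw n).le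
  have hne : (∑' n, γ n) ≠ 0 := by
    intro h0
    have h1 := tsum_mul_tsum_eq_tsum_sum_antidiagonal_of_summable_norm
      (f := G) (g := γ) hGsum hγsum
    rw [h0, mul_zero] at h1
    simp only [hconv] at h1
    rw [tsum_ite_eq] at h1
    exact zero_ne_one h1
  exact lt_of_le_of_ne hge (Ne.symm hne)

/-! ### The zero of the denominator -/

lemma pow_div_fact_le (x : ℝ) (hx : 0 ≤ x) (m n : ℕ) :
    x ^ (n + m) / ((n + m).factorial : ℝ) ≤ x ^ m / m.factorial * (x / (m + 1)) ^ n := by
  have h := Nat.factorial_mul_pow_le_factorial (m := m) (n := n)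
  have h1 : ((m.factorial : ℝ) * ((m : ℝ) + 1) ^ n) ≤ ((n + m).factorial : ℝ) := by
    rw [add_comm n m]
    exact_mod_cast h
  have h2 : (0 : ℝ) < (m.factorial : ℝ) * ((m : ℝ) + 1) ^ n := by positivity
  calc x ^ (n + m) / ((n + m).factorial : ℝ) ≤ x ^ (n + m) / ((m.factorial : ℝ) * ((m : ℝ) + 1) ^ n) :=
        div_le_div_of_nonneg_left (by positivity) h2 h1
    _ = x ^ m / m.factorial * (x / (m + 1)) ^ n := by
        rw [div_pow, pow_add]
        field_simp

lemma summable_q (x : ℝ) : Summable (fun e => q e * x ^ e) := by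
  refine Summable.of_norm_bounded (g := fun e => |x| ^ e / (e.factorial : ℝ))
    (Real.summable_pow_div_factorial |x|) fun e => ?_
  rw [Real.norm_eq_abs, abs_mul, abs_pow]
  calc |q e| * |x| ^ e ≤ 1 / e.factorial * |x| ^ e :=
        mul_le_mul_of_nonneg_right (abs_q e) (by positivity)
    _ = |x| ^ e / (e.factorial : ℝ) := by ring

lemma tail_bound (x : ℝ) (hx : 0 ≤ x) (m : ℕ) (hm : x < m + 1) :
    |∑' e, q (e + m) * x ^ (e + m)| ≤ x ^ m / m.factorial * (1 - x / (m + 1))⁻¹ := by
  have hr : x / (m + 1) < 1 := by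
    rw [div_lt_one (by positivity)]; exact hm
  have hr0 : 0 ≤ x / (m + 1) := by positivity
  have hg := (hasSum_geometric_of_lt_one hr0 hr).mul_left (x ^ m / m.factorial)
  have h := tsum_of_norm_bounded (f := fun e => q (e + m) * x ^ (e + m)) hg (fun e => by
    rw [Real.norm_eq_abs, abs_mul, abs_pow, abs_of_nonneg hx]
    calc |q (e + m)| * x ^ (e + m) ≤ 1 / (e + m).factorial * x ^ (e + m) :=
          mul_le_mul_of_nonneg_right (abs_q _) (by positivity)
      _ = x ^ (e + m) / ((e + m).factorial : ℝ) := by ring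
      _ ≤ _ := pow_div_fact_le x hx m e)
  exact h

/-- the denominator -/
noncomputable def f (x : ℝ) : ℝ := ∑' e, q e * x ^ e

lemma f_split (x : ℝ) (m : ℕ) :
    f x = ∑ e ∈ range m, q e * x ^ e + ∑' e, q (e + m) * x ^ (e + m) :=
  ((summable_q x).sum_add_tsum_nat_add m).symm

lemma q_vals : q 0 = 1 ∧ q 1 = -1 ∧ q 2 = 0 ∧ q 3 = 1 / 6 ∧ q 4 = -1 / 24 ∧ q 5 = 0 := by
  unfold q eps
  norm_num [Nat.factorial]

lemma sum_six (x : ℝ) : ∑ e ∈ range 6, q e * x ^ e = 1 - x + x ^ 3 / 6 - x ^ 4 / 24 := by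
  obtain ⟨h0, h1, h2, h3, h4, h5⟩ := q_vals
  simp only [Finset.sum_range_succ, Finset.sum_range_zero, h0, h1, h2, h3, h4, h5]
  ring

lemma f_cont : ContinuousOn f (Set.Icc (11 / 10) (13 / 10)) := by
  have hc : ∀ e, ContinuousOn (fun x : ℝ => q e * x ^ e) (Set.Icc (11 / 10) (13 / 10)) := by
    intro e
    generalize q e = c
    exact (continuous_const.mul (continuous_pow e)).continuousOn
  have hs := Real.summable_pow_div_factorial (13 / 10)
  have hb : ∀ e, ∀ x ∈ Set.Icc (11 / 10 : ℝ) (13 / 10),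
      ‖q e * x ^ e‖ ≤ (13 / 10 : ℝ) ^ e / (e.factorial : ℝ) := by
    intro e x hx
    have hx0 : 0 ≤ x := by linarith [hx.1]
    rw [Real.norm_eq_abs, abs_mul, abs_pow, abs_of_nonneg hx0]
    calc |q e| * x ^ e ≤ 1 / e.factorial * (13 / 10) ^ e := by
          refine mul_le_mul (abs_q e) (pow_le_pow_left₀ hx0 hx.2 e) (by positivity) (by positivity)
      _ = (13 / 10 : ℝ) ^ e / (e.factorial : ℝ) := by ring
  exact continuousOn_tsum hc hs hb

theorem exists_root : ∃ s : ℝ, 11 / 10 ≤ s ∧ s ≤ 13 / 10 ∧ f s = 0 := by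
  have h1 : f (13 / 10) ≤ 0 := by
    rw [f_split _ 6, sum_six]
    have := tail_bound (13 / 10) (by norm_num) 6 (by norm_num)
    have := (abs_le.1 this).2
    norm_num [Nat.factorial] at this ⊢
    linarith
  have h2 : 0 ≤ f (11 / 10) := by
    rw [f_split _ 6, sum_six]
    have := tail_bound (11 / 10) (by norm_num) 6 (by norm_num)
    have := (abs_le.1 this).1
    norm_num [Nat.factorial] at this ⊢
    linarith
  obtain ⟨s, hs, hs0⟩ := intermediate_value_Icc' (by norm_num : (11 / 10 : ℝ) ≤ 13 / 10) f_cont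
    (show (0 : ℝ) ∈ Set.Icc (f (13 / 10)) (f (11 / 10)) from ⟨h1, h2⟩)
  exact ⟨s, hs.1, hs.2, hs0⟩

/-- `a n * s ^ n` tends to a positive limit for some `s > 0`. -/
theorem a_asymp : ∃ s : ℝ, 0 < s ∧ ∃ ℓ : ℝ, 0 < ℓ ∧ Tendsto (fun n => a n * s ^ n) atTop (𝓝 ℓ) := by
  obtain ⟨s, hs1, hs2, hs0⟩ := exists_root
  have hspos : 0 < s := by linarith
  refine ⟨s, hspos, ?_⟩
  set G : ℕ → ℝ := fun n => ∑ e ∈ range (n + 1), q e * s ^ e with hG
  have hG0 : G 0 = 1 := by
    simp [hG, q_vals.1]
  have hGs : ∀ n, G (n + 1) = G n + q (n + 1) * s ^ (n + 1) := by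
    intro n
    simp only [hG]
    rw [Finset.sum_range_succ]
  obtain ⟨h0, h1, h2, h3, h4, h5⟩ := q_vals
  have hG1 : G 1 = 1 - s := by rw [hGs, hG0, h1]; ring
  have hG2 : G 2 = 1 - s := by rw [hGs, hG1, h2]; ring
  have hG3 : G 3 = 1 - s + s ^ 3 / 6 := by rw [hGs, hG2, h3]; ring
  have hG45 : G 5 = G 4 := by rw [hGs, h5]; ring
  have htail : ∀ n, |G (n + 5)| ≤ 17 / 2000 * (13 / 70) ^ n := by
    intro n
    have e1 : G (n + 5) = - ∑' e, q (e + (n + 6)) * s ^ (e + (n + 6)) := by
      have := f_split s (n + 6)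
      rw [hs0] at this
      simp only [hG]
      linarith
    rw [e1, abs_neg]
    refine (tail_bound s hspos.le (n + 6) (by push_cast; linarith)).trans ?_
    have e2 := pow_div_fact_le s hspos.le 6 n
    have e3 : (1 - s / ((n + 6 : ℕ) + 1 : ℝ))⁻¹ ≤ 5 / 4 := by
      have : s / ((n + 6 : ℕ) + 1 : ℝ) ≤ 13 / 70 := by
        rw [div_le_iff₀ (by positivity)]
        push_cast
        nlinarith [(Nat.cast_nonneg n : (0 : ℝ) ≤ n)]
      rw [inv_le_comm₀ (by linarith) (by norm_num)]
      linarith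
    have e4 : s ^ 6 / (Nat.factorial 6 : ℝ) * (s / ((6 : ℕ) + 1 : ℝ)) ^ n ≤
        (13 / 10) ^ 6 / 720 * (13 / 70) ^ n := by
      refine mul_le_mul ?_ ?_ (by positivity) (by positivity)
      · norm_num [Nat.factorial]
        have := pow_le_pow_left₀ hspos.le hs2 6
        norm_num at this
        linarith
      · apply pow_le_pow_left₀ (by positivity)
        norm_num
        linarith
    calc s ^ (n + 6) / ((n + 6).factorial : ℝ) * (1 - s / ((n + 6 : ℕ) + 1 : ℝ))⁻¹
        ≤ ((13 / 10) ^ 6 / 720 * (13 / 70) ^ n) * (5 / 4) := by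
          refine mul_le_mul (e2.trans e4) e3 ?_ (by positivity)
          apply inv_nonneg.2
          have : s / ((n + 6 : ℕ) + 1 : ℝ) ≤ 1 := by
            rw [div_le_one (by positivity)]
            push_cast
            linarith [(Nat.cast_nonneg n : (0 : ℝ) ≤ n)]
          linarith
      _ ≤ 17 / 2000 * (13 / 70) ^ n := by
          have : (0 : ℝ) ≤ (13 / 70) ^ n := by positivity
          nlinarith
  have hbound : ∀ M, ∑ e ∈ range M, |G (e + 1)| ≤ 3 / 4 := by
    intro M
    have e1 : ∑ e ∈ range M, |G (e + 1)| ≤ ∑ e ∈ range (4 + M), |G (e + 1)| :=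
      Finset.sum_le_sum_of_subset_of_nonneg (Finset.range_subset_range.2 (by omega))
        (fun _ _ _ => abs_nonneg _)
    rw [Finset.sum_range_add] at e1
    have e2 : ∑ e ∈ range M, |G (4 + e + 1)| ≤ 17 / 2000 * (1 - 13 / 70)⁻¹ := by
      have e3 : ∀ e ∈ range M, |G (4 + e + 1)| ≤ 17 / 2000 * (13 / 70) ^ e := by
        intro e _
        rw [show 4 + e + 1 = e + 5 by ring]
        exact htail e
      refine (Finset.sum_le_sum e3).trans ?_
      rw [← Finset.mul_sum]
      refine mul_le_mul_of_nonneg_left ?_ (by norm_num)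
      have := Summable.sum_le_tsum (range M)
        (fun i _ => by positivity) (summable_geometric_of_lt_one
          (by norm_num : (0 : ℝ) ≤ 13 / 70) (by norm_num))
      rwa [tsum_geometric_of_lt_one (by norm_num) (by norm_num)] at this
    have e4 : ∑ e ∈ range 4, |G (e + 1)| = |G 1| + |G 2| + |G 3| + |G 4| := by
      simp only [Finset.sum_range_succ, Finset.sum_range_zero, zero_add]
    have e5 := htail 0
    rw [hG45] at e5
    have e6 : |G 1| ≤ 3 / 10 := by rw [hG1, abs_le]; constructor <;> linarith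
    have e7 : |G 2| ≤ 3 / 10 := by rw [hG2, abs_le]; constructor <;> linarith
    have e8 : |G 3| ≤ 125 / 1000 := by
      rw [hG3, abs_le]
      constructor
      · have := pow_le_pow_left₀ (by norm_num : (0 : ℝ) ≤ 11 / 10) hs1 3
        norm_num at this
        linarith
      · -- 1 - s + s^3/6 ≤ 1/8 on [1.1, 1.3]
        nlinarith [mul_nonneg (sub_nonneg.2 hs1) (sub_nonneg.2 hs2),
          mul_nonneg (mul_nonneg (sub_nonneg.2 hs1) (sub_nonneg.2 hs2)) hspos.le]
    rw [e4] at e1
    norm_num at e2 e5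
    linarith
  apply renewal (fun n => a n * s ^ n) G hG0 (3 / 4) (by norm_num) hbound
  · have k1 : PowerSeries.mk G * (1 - PowerSeries.X) = PowerSeries.mk (fun e => q e * s ^ e) := by
      ext n
      rcases n with _ | n
      · simp [hG0, h0]
      · rw [mul_sub, mul_one, map_sub, PowerSeries.coeff_mk, PowerSeries.coeff_succ_mul_X,
          PowerSeries.coeff_mk, PowerSeries.coeff_mk, hGs]
        ring
    have k2 : PowerSeries.mk (fun e => q e * s ^ e) * PowerSeries.mk (fun n => a n * s ^ n) = 1 := by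
      ext n
      rw [PowerSeries.coeff_mul, PowerSeries.coeff_one]
      rcases n with _ | n
      · simp [h0, a_zero]
      · rw [if_neg (Nat.succ_ne_zero n), Finset.Nat.sum_antidiagonal_eq_sum_range_succ_mk]
        simp only [PowerSeries.coeff_mk]
        have h := rec_a n
        have k3 : ∀ e ∈ range (n + 1 + 1), q e * s ^ e * (a (n + 1 - e) * s ^ (n + 1 - e)) =
            s ^ (n + 1) * (q e * a (n + 1 - e)) := by
          intro e he
          have he' : e ≤ n + 1 := by
            have := Finset.mem_range.1 he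
            omega
          have : s ^ (n + 1) = s ^ e * s ^ (n + 1 - e) := by
            rw [← pow_add]; congr 1; omega
          rw [this]; ring
        rw [Finset.sum_congr rfl k3, ← Finset.mul_sum, h, mul_zero]
    calc PowerSeries.mk G * (PowerSeries.mk (fun n => a n * s ^ n) * (1 - PowerSeries.X))
        = (PowerSeries.mk G * (1 - PowerSeries.X)) * PowerSeries.mk (fun n => a n * s ^ n) := by
          ring
      _ = 1 := by rw [k1, k2]
  · intro n
    exact mul_pos (a_pos n) (by positivity)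

/-- ratio limit -/
theorem a_ratio : ∃ s : ℝ, 0 < s ∧ Tendsto (fun n => a n / a (n + 1)) atTop (𝓝 s) := by
  obtain ⟨s, hs, ℓ, hℓ, h⟩ := a_asymp
  refine ⟨s, hs, ?_⟩
  have h1 := (tendsto_add_atTop_iff_nat 1).2 h
  have h2 := (h.div h1 hℓ.ne').mul_const s
  rw [div_self hℓ.ne', one_mul] at h2
  refine h2.congr fun n => ?_
  have := (a_pos (n + 1)).ne'
  have := (a_pos n).ne'
  simp only [Pi.div_apply]
  rw [pow_succ]
  field_simp

end Pool.Agent.Q284.DD
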