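import Mathlib
import Pool.Agent.Q284.DD.Asym

set_option autoImplicit false

/-!
Asymptotics of the counts of permutations with given double descent set.
-/

namespace Pool.Agent.Q284.DD

open Finset Filter Topology

/-- asymptotic expansions with dominated coefficients -/
def Good (Φ : ℕ → ℕ → ℝ) : Prop :=
  ∃ (φ : ℕ → ℕ → ℝ) (L g : ℕ → ℝ) (K : ℕ), Summable g ∧
    (∀ k, K ≤ k → ∀ j ≤ k, Φ k j =
      ∑ l ∈ range (j + 1), (j.choose l : ℝ) * (((k - l).factorial : ℝ) * φ l k)) ∧
    (∀ l, Tendsto (fun k => φ l k / a k) atTop (𝓝 (L l))) ∧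
    (∀ k, K ≤ k → ∀ l ≤ k, |φ l k| ≤ l.factorial * g l * a k)

lemma ratio_bound : ∃ M : ℝ, 0 < M ∧ ∀ n, a n ≤ M * a (n + 1) := by
  obtain ⟨s, _, hs⟩ := a_ratio
  obtain ⟨M, hM⟩ := hs.bddAbove_range
  refine ⟨M, ?_, fun n => ?_⟩
  · have := hM ⟨0, rfl⟩
    exact lt_of_lt_of_le (div_pos (a_pos 0) (a_pos 1)) this
  · have := hM ⟨n, rfl⟩
    simp only at this
    rwa [div_le_iff₀ (a_pos (n + 1))] at this

lemma ratio_pow_bound {M : ℝ} (hM0 : 0 < M) (hM : ∀ n, a n ≤ M * a (n + 1)) (l : ℕ) :
    ∀ k, l ≤ k → a (k - l) ≤ M ^ l * a k := by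
  induction l with
  | zero => intro k _; simp
  | succ l ih =>
    intro k hk
    have h1 := hM (k - (l + 1))
    rw [show k - (l + 1) + 1 = k - l by omega] at h1
    have h2 := ih k (by omega)
    calc a (k - (l + 1)) ≤ M * a (k - l) := h1
      _ ≤ M * (M ^ l * a k) := mul_le_mul_of_nonneg_left h2 hM0.le
      _ = M ^ (l + 1) * a k := by ring

lemma ratio_pow_tendsto {s : ℝ} (hs : Tendsto (fun n => a n / a (n + 1)) atTop (𝓝 s)) (l : ℕ) :
    Tendsto (fun k => a (k - l) / a k) atTop (𝓝 (s ^ l)) := by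
  have h1 : Tendsto (fun k => a (k - 1) / a k) atTop (𝓝 s) := by
    rw [← tendsto_add_atTop_iff_nat 1]
    simpa using hs
  induction l with
  | zero =>
    simp only [Nat.sub_zero, pow_zero]
    refine tendsto_const_nhds.congr fun k => ?_
    rw [div_self (a_pos k).ne']
  | succ l ih =>
    have h2 : Tendsto (fun k => a (k - l - 1) / a (k - l)) atTop (𝓝 s) :=
      h1.comp (tendsto_sub_atTop_nat l)
    rw [pow_succ]
    refine (ih.mul h2).congr fun k => ?_
    rw [show k - (l + 1) = k - l - 1 by omega]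
    have := (a_pos (k - l)).ne'
    have := (a_pos k).ne'
    field_simp

/-- the expansions of the base functions -/
lemma good_base (c : ℕ → ℝ) (hc : ∀ e, |c e| ≤ 1) (Φ : ℕ → ℕ → ℝ)
    (h : ∀ j k, j ≤ k → Φ k j = ∑ e ∈ range (j + 1), c e * (j.choose e : ℝ) * T (k - e)) :
    Good Φ := by
  obtain ⟨M, hM0, hM⟩ := ratio_bound
  obtain ⟨s, _, hs⟩ := a_ratio
  refine ⟨fun l k => c l * a (k - l), fun l => c l * s ^ l, fun l => M ^ l / l.factorial, 0,
    Real.summable_pow_div_factorial M, ?_, ?_, ?_⟩
  · intro k _ j hj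
    rw [h j k hj]
    refine Finset.sum_congr rfl fun e _ => ?_
    rw [T_eq]
    ring
  · intro l
    refine ((ratio_pow_tendsto hs l).const_mul (c l)).congr fun k => ?_
    ring
  · intro k _ l hl
    rw [abs_mul, abs_of_pos (a_pos _)]
    have h1 : (l.factorial : ℝ) * (M ^ l / l.factorial) = M ^ l := by
      have : (l.factorial : ℝ) ≠ 0 := by positivity
      field_simp
    rw [h1]
    have h2 := ratio_pow_bound hM0 hM l k hl
    have h3 := a_pos (k - l)
    nlinarith [hc l, abs_nonneg (c l)]

lemma good_E (s : Bool) : Good (E s) := by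
  cases s
  · exact good_base dlt abs_dlt _ fun j k h => (E_expand j k h).2
  · exact good_base eps abs_eps _ fun j k h => (E_expand j k h).1

lemma Good.congr {Φ Ψ : ℕ → ℕ → ℝ} (h : Good Φ) (K' : ℕ)
    (hc : ∀ k, K' ≤ k → ∀ j ≤ k, Ψ k j = Φ k j) : Good Ψ := by
  obtain ⟨φ, L, g, K, h1, h2, h3, h4⟩ := h
  refine ⟨φ, L, g, max K K', h1, ?_, h3, ?_⟩
  · intro k hk j hj
    rw [hc k (le_trans (le_max_right _ _) hk) j hj]
    exact h2 k (le_trans (le_max_left _ _) hk) j hj
  · intro k hk
    exact h4 k (le_trans (le_max_left _ _) hk)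

lemma good_zero : Good (fun _ _ => 0) := by
  refine ⟨fun _ _ => 0, fun _ => 0, fun _ => 0, 0, summable_zero, ?_, ?_, ?_⟩
  · intro k _ j _; simp
  · intro l; simp
  · intro k _ l _; simp

lemma Good.add {Φ Ψ : ℕ → ℕ → ℝ} (h : Good Φ) (h' : Good Ψ) :
    Good (fun k j => Φ k j + Ψ k j) := by
  obtain ⟨φ, L, g, K, h1, h2, h3, h4⟩ := h
  obtain ⟨φ', L', g', K', h1', h2', h3', h4'⟩ := h'
  refine ⟨fun l k => φ l k + φ' l k, fun l => L l + L' l, fun l => g l + g' l, max K K',
    h1.add h1', ?_, ?_, ?_⟩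
  · intro k hk j hj
    simp only
    rw [h2 k (le_trans (le_max_left _ _) hk) j hj, h2' k (le_trans (le_max_right _ _) hk) j hj,
      ← Finset.sum_add_distrib]
    refine Finset.sum_congr rfl fun l _ => ?_
    ring
  · intro l
    refine ((h3 l).add (h3' l)).congr fun k => ?_
    ring
  · intro k hk l hl
    have e1 := h4 k (le_trans (le_max_left _ _) hk) l hl
    have e2 := h4' k (le_trans (le_max_right _ _) hk) l hl
    refine (abs_add_le _ _).trans ?_
    linarith

lemma Good.neg {Φ : ℕ → ℕ → ℝ} (h : Good Φ) : Good (fun k j => - Φ k j) := by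
  obtain ⟨φ, L, g, K, h1, h2, h3, h4⟩ := h
  refine ⟨fun l k => - φ l k, fun l => - L l, g, K, h1, ?_, ?_, ?_⟩
  · intro k hk j hj
    simp only
    rw [h2 k hk j hj, ← Finset.sum_neg_distrib]
    refine Finset.sum_congr rfl fun l _ => ?_
    ring
  · intro l
    refine (h3 l).neg.congr fun k => ?_
    ring
  · intro k hk l hl
    rw [abs_neg]
    exact h4 k hk l hl

lemma sum_choose (j l : ℕ) : ∑ i ∈ range j, (i.choose l : ℝ) = (j.choose (l + 1) : ℝ) := by
  induction j with
  | zero => simp
  | succ j ih =>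
    rw [Finset.sum_range_succ, ih, Nat.choose_succ_succ]
    push_cast
    ring

/-- expansion of the partial sums -/
lemma partial_sum (Φ φ : ℕ → ℕ → ℝ) (k : ℕ)
    (h : ∀ j ≤ k, Φ k j = ∑ l ∈ range (j + 1), (j.choose l : ℝ) * (((k - l).factorial : ℝ) * φ l k))
    (j : ℕ) (hj : j ≤ k + 1) :
    ∑ i ∈ range j, Φ k i =
      ∑ l ∈ range j, (j.choose (l + 1) : ℝ) * (((k - l).factorial : ℝ) * φ l k) := by
  have h1 : ∀ i ∈ range j, Φ k i =
      ∑ l ∈ range j, (i.choose l : ℝ) * (((k - l).factorial : ℝ) * φ l k) := by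
    intro i hi
    have hi' := Finset.mem_range.1 hi
    rw [h i (by omega)]
    apply Finset.sum_subset (Finset.range_subset_range.2 (by omega))
    intro l _ hl
    rw [Finset.mem_range, not_lt] at hl
    rw [Nat.choose_eq_zero_of_lt (by omega)]
    simp
  rw [Finset.sum_congr rfl h1, Finset.sum_comm]
  refine Finset.sum_congr rfl fun l _ => ?_
  rw [← Finset.sum_mul, sum_choose]

/-- the partial sum operator -/
def D (Φ : ℕ → ℕ → ℝ) : ℕ → ℕ → ℝ
  | 0, _ => 0
  | k + 1, j => ∑ i ∈ range j, Φ k i

/-- the total sum operator -/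
def Tot (Φ : ℕ → ℕ → ℝ) : ℕ → ℕ → ℝ
  | 0, _ => 0
  | k + 1, _ => ∑ i ∈ range (k + 1), Φ k i

lemma Good.D {Φ : ℕ → ℕ → ℝ} (h : Good Φ) : Good (D Φ) := by
  obtain ⟨M, hM0, hM⟩ := ratio_bound
  obtain ⟨s, _, hs⟩ := a_ratio
  obtain ⟨φ, L, g, K, h1, h2, h3, h4⟩ := h
  refine ⟨fun l k => match l with
    | 0 => 0
    | l + 1 => φ l (k - 1), fun l => match l with
    | 0 => 0
    | l + 1 => L l * s, fun l => match l with
    | 0 => 0
    | l + 1 => g l * M, K + 1, ?_, ?_, ?_, ?_⟩
  · rw [← summable_nat_add_iff 1]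
    exact h1.mul_right M
  · intro k hk j hj
    obtain ⟨k, rfl⟩ : ∃ k', k = k' + 1 := ⟨k - 1, by omega⟩
    rw [Pool.Agent.Q284.DD.D, partial_sum Φ φ k (h2 k (by omega)) j hj, Finset.sum_range_succ']
    simp only [mul_zero, add_zero, Nat.add_sub_cancel]
    refine Finset.sum_congr rfl fun l _ => ?_
    rw [show k + 1 - (l + 1) = k - l by omega]
  · intro l
    rcases l with _ | l
    · simp
    · have h5 := ((h3 l).comp (tendsto_sub_atTop_nat 1)).mul (ratio_pow_tendsto hs 1)
      rw [pow_one] at h5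
      refine h5.congr fun k => ?_
      simp only [Function.comp]
      have := (a_pos (k - 1)).ne'
      have := (a_pos k).ne'
      field_simp
  · intro k hk l hl
    rcases l with _ | l
    · simp
    · have e1 := h4 (k - 1) (by omega) l (by omega)
      have e2 := hM (k - 1)
      rw [show k - 1 + 1 = k by omega] at e2
      have e3 : 0 ≤ (l.factorial : ℝ) * g l := by
        by_contra hneg
        push Not at hneg
        have := abs_nonneg (φ l (k - 1))
        nlinarith [a_pos (k - 1)]
      simp only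
      refine e1.trans ?_
      rw [Nat.factorial_succ]
      push_cast
      have e4 : (l.factorial : ℝ) * g l * a (k - 1) ≤ (l.factorial : ℝ) * g l * (M * a k) :=
        mul_le_mul_of_nonneg_left e2 e3
      have e5 : 0 ≤ (l.factorial : ℝ) * g l * (M * a k) :=
        mul_nonneg e3 (mul_nonneg hM0.le (a_pos k).le)
      have e6 : (0 : ℝ) ≤ l := Nat.cast_nonneg l
      nlinarith

lemma Good.Tot {Φ : ℕ → ℕ → ℝ} (h : Good Φ) : Good (Tot Φ) := by
  obtain ⟨M, hM0, hM⟩ := ratio_bound
  obtain ⟨s, _, hs⟩ := a_ratio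
  obtain ⟨φ, L, g, K, h1, h2, h3, h4⟩ := h
  have hg : ∀ l, 0 ≤ g l := by
    intro l
    have e1 := h4 (max K l) (le_max_left _ _) l (le_max_right _ _)
    have e2 := abs_nonneg (φ l (max K l))
    have e3 := a_pos (max K l)
    by_contra hneg
    push Not at hneg
    have e4 : (0 : ℝ) < l.factorial := by positivity
    have e5 : (l.factorial : ℝ) * g l * a (max K l) < 0 :=
      mul_neg_of_neg_of_pos (mul_neg_of_pos_of_neg e4 hneg) e3
    linarith
  -- termwise bound
  have hterm : ∀ k, K ≤ k → ∀ l ≤ k, |φ l k / (l + 1).factorial| ≤ g l * a k := by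
    intro k hk l hl
    rw [abs_div, abs_of_pos (show (0 : ℝ) < (l + 1).factorial by positivity),
      div_le_iff₀ (by positivity)]
    refine (h4 k hk l hl).trans ?_
    rw [Nat.factorial_succ]
    push_cast
    have e1 : 0 ≤ g l * a k := mul_nonneg (hg l) (a_pos k).le
    have e2 : (0 : ℝ) ≤ l.factorial := by positivity
    have e3 : (0 : ℝ) ≤ l := Nat.cast_nonneg l
    have e4 : 0 ≤ (l : ℝ) * (l.factorial * (g l * a k)) := by positivity
    nlinarith
  set ψ : ℕ → ℝ := fun k => ∑ l ∈ range (k + 1), φ l k / (l + 1).factorial with hψ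
  have hψlim : Tendsto (fun k => ψ k / a k) atTop (𝓝 (∑' l, L l / (l + 1).factorial)) := by
    have h5 := tendsto_tsum_of_dominated_convergence
      (𝓕 := atTop)
      (f := fun k l => if l ≤ k then φ l k / a k / ((l + 1).factorial : ℝ) else 0)
      (g := fun l => L l / ((l + 1).factorial : ℝ)) (bound := g) h1 ?_ ?_
    · refine h5.congr fun k => ?_
      rw [tsum_eq_sum (s := range (k + 1))]
      · simp only [hψ]
        rw [Finset.sum_div]
        refine Finset.sum_congr rfl fun l hl => ?_
        rw [if_pos (by have := Finset.mem_range.1 hl; omega)]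
        ring
      · intro l hl
        rw [Finset.mem_range, not_lt] at hl
        rw [if_neg (by omega)]
    · intro l
      refine ((h3 l).div_const _).congr' ?_
      filter_upwards [eventually_ge_atTop l] with k hk
      rw [if_pos hk]
    · filter_upwards [eventually_ge_atTop K] with k hk l
      split_ifs with hl
      · have e1 := hterm k hk l hl
        rw [Real.norm_eq_abs, show φ l k / a k / ((l + 1).factorial : ℝ) =
          (φ l k / ((l + 1).factorial : ℝ)) / a k by ring, abs_div, abs_of_pos (a_pos k),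
          div_le_iff₀ (a_pos k)]
        exact e1
      · rw [norm_zero]; exact hg l
  refine ⟨fun l k => match l with
    | 0 => ψ (k - 1)
    | _ + 1 => 0, fun l => match l with
    | 0 => (∑' l, L l / (l + 1).factorial) * s
    | _ + 1 => 0, fun l => match l with
    | 0 => (∑' l, g l) * M
    | _ + 1 => 0, K + 1, ?_, ?_, ?_, ?_⟩
  · rw [← summable_nat_add_iff 1]
    exact summable_zero
  · intro k hk j hj
    obtain ⟨k, rfl⟩ : ∃ k', k = k' + 1 := ⟨k - 1, by omega⟩
    rw [Finset.sum_range_succ', Pool.Agent.Q284.DD.Tot,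
      partial_sum Φ φ k (h2 k (by omega)) (k + 1) le_rfl]
    simp only [mul_zero, Finset.sum_const_zero, zero_add, Nat.choose_zero_right, Nat.cast_one,
      one_mul, Nat.sub_zero, Nat.add_sub_cancel, hψ, Finset.mul_sum]
    refine Finset.sum_congr rfl fun l hl => ?_
    have hl' : l + 1 ≤ k + 1 := by
      have := Finset.mem_range.1 hl
      omega
    have e1 : ((k + 1).factorial : ℝ) = (k + 1).choose (l + 1) * (l + 1).factorial *
        (k - l).factorial := by
      have := Nat.choose_mul_factorial_mul_factorial hl'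
      rw [show k + 1 - (l + 1) = k - l by omega] at this
      exact_mod_cast this.symm
    rw [e1]
    have : ((l + 1).factorial : ℝ) ≠ 0 := by positivity
    field_simp
  · intro l
    rcases l with _ | l
    · have h5 := (hψlim.comp (tendsto_sub_atTop_nat 1)).mul (ratio_pow_tendsto hs 1)
      rw [pow_one] at h5
      refine h5.congr fun k => ?_
      simp only [Function.comp]
      have := (a_pos (k - 1)).ne'
      have := (a_pos k).ne'
      field_simp
    · simp
  · intro k hk l hl
    rcases l with _ | l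
    · simp only [Nat.factorial_zero, Nat.cast_one, one_mul]
      have e2 := hM (k - 1)
      rw [show k - 1 + 1 = k by omega] at e2
      have e1 : |ψ (k - 1)| ≤ (∑' l, g l) * a (k - 1) := by
        simp only [hψ]
        refine (Finset.abs_sum_le_sum_abs _ _).trans ?_
        have e3 : ∑ l ∈ range (k - 1 + 1), |φ l (k - 1) / ((l + 1).factorial : ℝ)| ≤
            ∑ l ∈ range (k - 1 + 1), g l * a (k - 1) := by
          refine Finset.sum_le_sum fun l hl => ?_
          exact hterm (k - 1) (by omega) l (by have := Finset.mem_range.1 hl; omega)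
        refine e3.trans ?_
        rw [← Finset.sum_mul]
        exact mul_le_mul_of_nonneg_right (h1.sum_le_tsum _ (fun i _ => hg i)) (a_pos _).le
      have e4 : 0 ≤ ∑' l, g l := tsum_nonneg hg
      refine e1.trans ?_
      rw [mul_assoc]
      exact mul_le_mul_of_nonneg_left e2 e4
    · simp

/-- the automaton counts are good -/
theorem good_chk (I : Finset ℕ) : ∀ (m p : ℕ) (s : Bool), I.sup id + 1 ≤ p + m →
    Good (Ph (chk I s p)) := by
  intro m
  induction m with
  | zero =>
    intro p s hp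
    have h : chk I s p = chk0 s := by
      funext l
      apply chk_eq_chk0
      intro i hi
      have := Finset.le_sup (f := id) hi
      simp only [id] at this
      omega
    rw [h]
    exact good_E s
  | succ m ih =>
    intro p s hp
    have hA := ih (p + 1) true (by omega)
    have hB := ih (p + 1) false (by omega)
    have g1 : Good (fun k j => if (s = true ↔ p ∈ I) then D (Ph (chk I true (p + 1))) k j else 0) := by
      by_cases h : (s = true ↔ p ∈ I)
      · simp only [h, if_true]; exact hA.D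
      · simp only [h, if_false]; exact good_zero
    have g2 : Good (fun k j => if p ∈ I then 0 else
        Tot (Ph (chk I false (p + 1))) k j + - D (Ph (chk I false (p + 1))) k j) := by
      by_cases h : p ∈ I
      · simp only [h, if_true]; exact good_zero
      · simp only [h, if_false]; exact hB.Tot.add hB.D.neg
    refine (g1.add g2).congr 1 ?_
    intro k hk j hj
    obtain ⟨k, rfl⟩ : ∃ k', k = k' + 1 := ⟨k - 1, by omega⟩
    rw [Ph_chk_succ I s p k j hj]
    simp only [D, Tot]
    congr 1
    split_ifs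
    · rfl
    · rw [← Finset.sum_range_add_sum_Ico _ hj]
      ring

/-- the ratio to the number of permutations without double descent converges -/
theorem dd_limit (I : Finset ℕ) : ∃ L : ℝ,
    Tendsto (fun n => (dd I n : ℝ) / (n.factorial * a n)) atTop (𝓝 L) := by
  by_cases h0 : 0 ∈ I
  · refine ⟨0, ?_⟩
    refine (tendsto_const_nhds (x := (0 : ℝ))).congr' ?_
    filter_upwards [eventually_ge_atTop 1] with n hn
    obtain ⟨n, rfl⟩ : ∃ n', n = n' + 1 := ⟨n - 1, by omega⟩
    rw [dd_succ, if_pos h0]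
    simp
  · have h := (good_chk I (I.sup id + 1) 1 false (by omega)).Tot
    obtain ⟨φ, L, g, K, h1, h2, h3, h4⟩ := h
    refine ⟨L 0, ?_⟩
    refine (h3 0).congr' ?_
    filter_upwards [eventually_ge_atTop (K + 1)] with n hn
    obtain ⟨n, rfl⟩ : ∃ n', n = n' + 1 := ⟨n - 1, by omega⟩
    have e1 := h2 (n + 1) (by omega) 0 (Nat.zero_le _)
    simp only [zero_add, Finset.sum_range_one, Nat.choose_zero_right, Nat.cast_one, one_mul,
      Nat.sub_zero, Tot] at e1
    rw [dd_succ, if_neg h0]
    have e2 : ((∑ j ∈ range (n + 1), N n j (chk I false 1) : ℕ) : ℝ) =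
        ∑ i ∈ range (n + 1), Ph (chk I false 1) n i := by
      push_cast
      rfl
    rw [e2, e1]
    have := (a_pos (n + 1)).ne'
    have h5 : ((n + 1).factorial : ℝ) ≠ 0 := by positivity
    field_simp

end Pool.Agent.Q284.DD
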