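import Mathlib
import Pool.Agent.Q284.DD.Good

set_option autoImplicit false

/-!
Lower bounds, and the final ratio theorem.
-/

namespace Pool.Agent.Q284.DD

open Finset Filter Topology

/-- lower bound property -/
def LB (Φ : ℕ → ℕ → ℝ) : Prop :=
  ∃ (c : ℝ) (d u : ℕ), 0 < c ∧ ∀ k, ∀ j ≤ k,
    c * (j.choose d : ℝ) * ((k - j).choose u : ℝ) * T (k - d - u) ≤ Φ k j

/-- eventually zero -/
def Ze (Φ : ℕ → ℕ → ℝ) : Prop := ∃ K, ∀ k, K ≤ k → ∀ j ≤ k, Φ k j = 0

/-- the number of permutations of `[k]` without double descent starting with an ascent -/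
noncomputable def B (k : ℕ) : ℝ := ∑ i ∈ range k, E true (k - 1) i

lemma E_true_le (k j : ℕ) (h : j ≤ k) : E true k j ≤ E false k j := by
  rcases k with _ | k
  · rw [E_zero, E_zero]
  · rw [E_true_succ k j h, E_false_succ k j h]
    have : 0 ≤ ∑ i ∈ range j, E true k i := Finset.sum_nonneg fun _ _ => E_nonneg _ _ _
    linarith

lemma B_le_E (k j : ℕ) (hj : j ≤ k + 1) : B (k + 1) ≤ E false (k + 1) j := by
  rw [B, Nat.add_sub_cancel, E_false_succ k j hj, ← Finset.sum_range_add_sum_Ico _ hj]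
  refine add_le_add le_rfl (Finset.sum_le_sum fun i hi => ?_)
  exact E_true_le k i (by have := (Finset.mem_Ico.1 hi).2; omega)

lemma T_le_B (k : ℕ) : T (k + 2) ≤ B (k + 2) + (k + 2) * B (k + 1) := by
  rw [T, E_true_succ (k + 1) 0 (Nat.zero_le _), B, ← Finset.range_eq_Ico]
  have h : ∀ i ∈ range (k + 1 + 1), E false (k + 1) i ≤ E true (k + 1) i + B (k + 1) := by
    intro i hi
    have hi' : i ≤ k + 1 := by have := Finset.mem_range.1 hi; omega
    rw [E_false_succ k i hi', E_true_succ k i hi', B, Nat.add_sub_cancel]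
    have : ∑ i ∈ range i, E true k i ≤ ∑ i ∈ range (k + 1), E true k i :=
      Finset.sum_le_sum_of_subset_of_nonneg (Finset.range_subset_range.2 hi')
        (fun _ _ _ => E_nonneg _ _ _)
    linarith
  refine (Finset.sum_le_sum h).trans ?_
  rw [Finset.sum_add_distrib, Finset.sum_const, Finset.card_range, nsmul_eq_mul]
  push_cast
  have e : (k : ℝ) + 1 + 1 = k + 2 := by ring
  rw [e]

lemma lb_E_false : LB (E false) := by
  obtain ⟨M, hM0, hM⟩ := ratio_bound
  -- choose the constant small enough to include `k = 1`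
  refine ⟨min 1 (1 / (2 * M)), 0, 1, by positivity, ?_⟩
  intro k j hj
  rcases k with _ | _ | k
  · have : j = 0 := by omega
    subst this
    simp [E_nonneg]
  · -- k = 1
    have hE : E false 1 j = 1 := by
      rw [show (1 : ℕ) = 0 + 1 by rfl, E_false_succ 0 j hj]
      have : ∑ i ∈ range j, E true 0 i + ∑ i ∈ Ico j (0 + 1), E false 0 i =
          ((j : ℕ) : ℝ) + ((0 + 1 - j : ℕ) : ℝ) := by
        simp [E_zero]
      rw [this]
      have h2 : j = 0 ∨ j = 1 := by omega
      rcases h2 with rfl | rfl <;> simp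
    simp only [zero_add] at hj ⊢
    rw [hE]
    have h2 : j = 0 ∨ j = 1 := by omega
    rcases h2 with rfl | rfl
    · simp [T_zero]
    · simp
  · set X := E false (k + 2) j with hX
    have h1 : B (k + 2) ≤ X := B_le_E (k + 1) j hj
    have h2 : ((k + 2 - j : ℕ) : ℝ) * B (k + 1) ≤ X := by
      rw [hX, E_false_succ (k + 1) j hj]
      have h3 : ∑ i ∈ Ico j (k + 1 + 1), B (k + 1) ≤ ∑ i ∈ Ico j (k + 1 + 1), E false (k + 1) i := by
        refine Finset.sum_le_sum fun i hi => ?_
        exact B_le_E k i (by have := (Finset.mem_Ico.1 hi).2; omega)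
      rw [Finset.sum_const, Nat.card_Ico, nsmul_eq_mul] at h3
      have h4 : 0 ≤ ∑ i ∈ range j, E true (k + 1) i := Finset.sum_nonneg fun _ _ => E_nonneg _ _ _
      linarith
    have h3 := T_le_B k
    have h4 : ((k : ℝ) + 2) * T (k + 1) ≤ M * T (k + 2) := by
      have := hM (k + 1)
      rw [T_eq, T_eq, Nat.factorial_succ (k + 1)]
      push_cast
      have h5 : (0 : ℝ) ≤ (k + 1).factorial := by positivity
      have h6 : 0 ≤ (((k : ℝ) + 2) * (k + 1).factorial) := by positivity
      have h7 := mul_le_mul_of_nonneg_left this h6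
      have e : (k : ℝ) + 1 + 1 = k + 2 := by ring
      rw [e]
      linarith
    have h5 : ((k + 2 - j : ℕ) : ℝ) = (k : ℝ) + 2 - j := by
      rw [Nat.cast_sub hj]; push_cast; ring
    rw [h5] at h2
    rw [Nat.choose_zero_right, Nat.choose_one_right, h5]
    have hT := (T_pos (k + 1)).le
    have e1 : k + 1 + 1 - 0 - 1 = k + 1 := by omega
    rw [e1]
    have hjk : (j : ℝ) ≤ (k : ℝ) + 2 := by
      have : (j : ℝ) ≤ ((k + 1 + 1 : ℕ) : ℝ) := by exact_mod_cast hj
      push_cast at this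
      linarith
    have hj0 : (0 : ℝ) ≤ j := Nat.cast_nonneg j
    have hk0 : (0 : ℝ) < (k : ℝ) + 2 := by positivity
    set y : ℝ := (k : ℝ) + 2 - j with hy
    have hy0 : 0 ≤ y := by linarith
    have hyk : y ≤ (k : ℝ) + 2 := by linarith
    -- y * T(k+2) ≤ 2 (k+2) X
    have hB0 : 0 ≤ B (k + 2) := Finset.sum_nonneg fun _ _ => E_nonneg _ _ _
    have h6 : y * T (k + 2) ≤ 2 * ((k : ℝ) + 2) * X := by
      have e2 : y * T (k + 2) ≤ y * B (k + 2) + ((k : ℝ) + 2) * (y * B (k + 1)) := by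
        have := mul_le_mul_of_nonneg_left h3 hy0
        linarith
      have e3 : y * B (k + 2) ≤ ((k : ℝ) + 2) * X :=
        mul_le_mul hyk h1 hB0 hk0.le
      have e4 : ((k : ℝ) + 2) * (y * B (k + 1)) ≤ ((k : ℝ) + 2) * X :=
        mul_le_mul_of_nonneg_left h2 hk0.le
      linarith
    have h7 : y * T (k + 1) ≤ 2 * M * X := by
      have e2 : ((k : ℝ) + 2) * (y * T (k + 1)) ≤ ((k : ℝ) + 2) * (2 * M * X) := by
        have e3 := mul_le_mul_of_nonneg_left h4 hy0
        have e4 := mul_le_mul_of_nonneg_left h6 hM0.le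
        nlinarith
      exact le_of_mul_le_mul_left e2 hk0
    have h8 : min 1 (1 / (2 * M)) ≤ 1 / (2 * M) := min_le_right _ _
    have h9 : min 1 (1 / (2 * M)) * (y * T (k + 1)) ≤ 1 / (2 * M) * (y * T (k + 1)) :=
      mul_le_mul_of_nonneg_right h8 (mul_nonneg hy0 hT)
    have h10 : 1 / (2 * M) * (y * T (k + 1)) ≤ X := by
      rw [div_mul_eq_mul_div, one_mul, div_le_iff₀ (by positivity)]
      linarith
    have h11 : min 1 (1 / (2 * M)) * ((1 : ℕ) : ℝ) * y * T (k + 1) =
      min 1 (1 / (2 * M)) * (y * T (k + 1)) := by push_cast; ring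
    rw [h11]
    exact h9.trans h10

lemma sum_choose_Ico (j k u : ℕ) :
    ∑ i ∈ Ico j (k + 1), ((k - i).choose u : ℝ) = ((k + 1 - j).choose (u + 1) : ℝ) := by
  rw [← sum_choose, ← Finset.sum_range_reflect, Finset.sum_Ico_eq_sum_range]
  refine Finset.sum_congr rfl fun i hi => ?_
  have := Finset.mem_range.1 hi
  rw [show k - (j + i) = k + 1 - j - 1 - i by omega]

lemma LB.D {Φ : ℕ → ℕ → ℝ} (h : LB Φ) : LB (D Φ) := by
  obtain ⟨c, d, u, hc, h⟩ := h
  refine ⟨c, d + 1, u, hc, ?_⟩
  intro k j hj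
  rcases k with _ | k
  · have : j = 0 := by omega
    subst this
    simp [Pool.Agent.Q284.DD.D]
  · rw [Pool.Agent.Q284.DD.D]
    have h1 : ∀ i ∈ range j, c * (i.choose d : ℝ) * ((k + 1 - j).choose u : ℝ) * T (k - d - u) ≤
        Φ k i := by
      intro i hi
      have hi' := Finset.mem_range.1 hi
      refine le_trans ?_ (h k i (by omega))
      have e1 : (((k + 1 - j).choose u : ℕ) : ℝ) ≤ (((k - i).choose u : ℕ) : ℝ) := by
        exact_mod_cast Nat.choose_le_choose u (by omega)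
      have e2 := (T_pos (k - d - u)).le
      have e3 : 0 ≤ c * (i.choose d : ℝ) := by positivity
      exact mul_le_mul_of_nonneg_right (mul_le_mul_of_nonneg_left e1 e3) e2
    refine le_trans (le_of_eq ?_) (Finset.sum_le_sum h1)
    rw [← sum_choose, show k + 1 - (d + 1) - u = k - d - u by omega]
    simp only [Finset.mul_sum, Finset.sum_mul]

/-- the ascent operator -/
def A (Φ : ℕ → ℕ → ℝ) : ℕ → ℕ → ℝ
  | 0, _ => 0
  | k + 1, j => ∑ i ∈ Ico j (k + 1), Φ k i

lemma LB.A {Φ : ℕ → ℕ → ℝ} (h : LB Φ) : LB (A Φ) := by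
  obtain ⟨c, d, u, hc, h⟩ := h
  refine ⟨c, d, u + 1, hc, ?_⟩
  intro k j hj
  rcases k with _ | k
  · have : j = 0 := by omega
    subst this
    simp [Pool.Agent.Q284.DD.A]
  · rw [Pool.Agent.Q284.DD.A]
    have h1 : ∀ i ∈ Ico j (k + 1), c * (j.choose d : ℝ) * ((k - i).choose u : ℝ) * T (k - d - u) ≤
        Φ k i := by
      intro i hi
      have hi' := Finset.mem_Ico.1 hi
      refine le_trans ?_ (h k i (by omega))
      have e1 : ((j.choose d : ℕ) : ℝ) ≤ ((i.choose d : ℕ) : ℝ) := by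
        exact_mod_cast Nat.choose_le_choose d hi'.1
      have e2 := (T_pos (k - d - u)).le
      have e3 : (0 : ℝ) ≤ ((k - i).choose u : ℝ) := Nat.cast_nonneg _
      exact mul_le_mul_of_nonneg_right (mul_le_mul_of_nonneg_right
        (mul_le_mul_of_nonneg_left e1 hc.le) e3) e2
    refine le_trans (le_of_eq ?_) (Finset.sum_le_sum h1)
    rw [← sum_choose_Ico j k u, show k + 1 - d - (u + 1) = k - d - u by omega]
    simp only [Finset.mul_sum, Finset.sum_mul]

lemma lb_E_true : LB (E true) := by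
  have h := lb_E_false.A
  obtain ⟨c, d, u, hc, h⟩ := h
  refine ⟨min c 1, d, u, by positivity, ?_⟩
  intro k j hj
  rcases k with _ | k
  · have : j = 0 := by omega
    subst this
    rw [E_zero]
    have e1 : ((Nat.choose 0 d : ℕ) : ℝ) ≤ 1 := by
      rcases d with _ | d <;> simp
    have e2 : ((Nat.choose (0 - 0) u : ℕ) : ℝ) ≤ 1 := by
      rcases u with _ | u <;> simp
    rw [show 0 - d - u = 0 by omega, T_zero, mul_one]
    have e3 : (0 : ℝ) ≤ ((Nat.choose 0 d : ℕ) : ℝ) := Nat.cast_nonneg _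
    have e4 : (0 : ℝ) ≤ ((Nat.choose (0 - 0) u : ℕ) : ℝ) := Nat.cast_nonneg _
    have e5 : min c 1 ≤ 1 := min_le_right _ _
    have e6 : 0 < min c 1 := by positivity
    calc min c 1 * ((Nat.choose 0 d : ℕ) : ℝ) * ((Nat.choose (0 - 0) u : ℕ) : ℝ)
        ≤ 1 * 1 * 1 := by
          refine mul_le_mul (mul_le_mul e5 e1 e3 zero_le_one) e2 e4 (by norm_num)
      _ = 1 := by norm_num
  · have e1 := h (k + 1) j hj
    rw [E_true_succ k j hj]
    rw [A] at e1
    refine le_trans ?_ e1
    have e2 : min c 1 ≤ c := min_le_left _ _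
    have e3 := (T_pos (k + 1 - d - u)).le
    have e4 : (0 : ℝ) ≤ (j.choose d : ℝ) := Nat.cast_nonneg _
    have e5 : (0 : ℝ) ≤ ((k + 1 - j).choose u : ℝ) := Nat.cast_nonneg _
    exact mul_le_mul_of_nonneg_right (mul_le_mul_of_nonneg_right
      (mul_le_mul_of_nonneg_right e2 e4) e5) e3

/-- adding a nonnegative function and changing nothing else -/
lemma LB.mono {Φ Ψ : ℕ → ℕ → ℝ} (h : LB Φ) (hle : ∀ k, ∀ j ≤ k, Φ k j ≤ Ψ k j) : LB Ψ := by
  obtain ⟨c, d, u, hc, h⟩ := h
  exact ⟨c, d, u, hc, fun k j hj => (h k j hj).trans (hle k j hj)⟩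

lemma Ze.D {Φ : ℕ → ℕ → ℝ} (h : Ze Φ) : Ze (D Φ) := by
  obtain ⟨K, h⟩ := h
  refine ⟨K + 1, fun k hk j hj => ?_⟩
  obtain ⟨k, rfl⟩ : ∃ k', k = k' + 1 := ⟨k - 1, by omega⟩
  rw [Pool.Agent.Q284.DD.D]
  refine Finset.sum_eq_zero fun i hi => ?_
  exact h k (by omega) i (by have := Finset.mem_range.1 hi; omega)

lemma Ze.A {Φ : ℕ → ℕ → ℝ} (h : Ze Φ) : Ze (A Φ) := by
  obtain ⟨K, h⟩ := h
  refine ⟨K + 1, fun k hk j hj => ?_⟩
  obtain ⟨k, rfl⟩ : ∃ k', k = k' + 1 := ⟨k - 1, by omega⟩
  rw [Pool.Agent.Q284.DD.A]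
  refine Finset.sum_eq_zero fun i hi => ?_
  exact h k (by omega) i (by have := (Finset.mem_Ico.1 hi).2; omega)

lemma D_nonneg {Φ : ℕ → ℕ → ℝ} (h : ∀ k j, 0 ≤ Φ k j) (k j : ℕ) : 0 ≤ D Φ k j := by
  rcases k with _ | k
  · exact le_rfl
  · exact Finset.sum_nonneg fun _ _ => h _ _

lemma A_nonneg {Φ : ℕ → ℕ → ℝ} (h : ∀ k j, 0 ≤ Φ k j) (k j : ℕ) : 0 ≤ A Φ k j := by
  rcases k with _ | k
  · exact le_rfl
  · exact Finset.sum_nonneg fun _ _ => h _ _

theorem dich (I : Finset ℕ) : ∀ (m p : ℕ) (s : Bool), I.sup id + 1 ≤ p + m →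
    LB (Ph (chk I s p)) ∨ Ze (Ph (chk I s p)) := by
  intro m
  induction m with
  | zero =>
    intro p s hp
    have h : chk I s p = chk0 s := by
      funext l
      apply chk_eq_chk0
      intro i hi
      have := Finset.le_sup (f := id) hi
      simp only [id] at this
      omega
    rw [h]
    left
    cases s
    · exact lb_E_false
    · exact lb_E_true
  | succ m ih =>
    intro p s hp
    have hA := ih (p + 1) true (by omega)
    have hB := ih (p + 1) false (by omega)
    set Φ1 := Ph (chk I true (p + 1)) with hΦ1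
    set Φ2 := Ph (chk I false (p + 1)) with hΦ2
    have hrec : ∀ k, ∀ j ≤ k + 1, Ph (chk I s p) (k + 1) j =
        (if (s = true ↔ p ∈ I) then D Φ1 (k + 1) j else 0) +
        (if p ∈ I then 0 else A Φ2 (k + 1) j) := fun k j hj => Ph_chk_succ I s p k j hj
    have n1 : ∀ k j, 0 ≤ D Φ1 k j := D_nonneg (fun _ _ => Ph_nonneg _ _ _)
    have n2 : ∀ k j, 0 ≤ A Φ2 k j := A_nonneg (fun _ _ => Ph_nonneg _ _ _)
    by_cases c1 : (s = true ↔ p ∈ I) ∧ LB Φ1
    · left
      refine c1.2.D.mono ?_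
      intro k j hj
      rcases k with _ | k
      · exact Ph_nonneg _ _ _
      · rw [hrec k j hj, if_pos c1.1]
        split_ifs
        · simp
        · linarith [n2 (k + 1) j]
    by_cases c2 : p ∉ I ∧ LB Φ2
    · left
      refine c2.2.A.mono ?_
      intro k j hj
      rcases k with _ | k
      · exact Ph_nonneg _ _ _
      · rw [hrec k j hj, if_neg c2.1]
        split_ifs
        · linarith [n1 (k + 1) j]
        · simp
    right
    have z1 : (s = true ↔ p ∈ I) → Ze (D Φ1) := fun h => by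
      rcases hA with hA | hA
      · exact absurd ⟨h, hA⟩ c1
      · exact hA.D
    have z2 : p ∉ I → Ze (A Φ2) := fun h => by
      rcases hB with hB | hB
      · exact absurd ⟨h, hB⟩ c2
      · exact hB.A
    have z3 : Ze (fun k j => if (s = true ↔ p ∈ I) then D Φ1 k j else 0) := by
      by_cases h : (s = true ↔ p ∈ I)
      · simp only [h, if_true]; exact z1 h
      · simp only [h, if_false]; exact ⟨0, fun _ _ _ _ => rfl⟩
    have z4 : Ze (fun k j => if p ∈ I then 0 else A Φ2 k j) := by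
      by_cases h : p ∈ I
      · simp only [h, if_true]; exact ⟨0, fun _ _ _ _ => rfl⟩
      · simp only [h, if_false]; exact z2 h
    obtain ⟨K1, z3⟩ := z3
    obtain ⟨K2, z4⟩ := z4
    refine ⟨K1 + K2 + 1, fun k hk j hj => ?_⟩
    obtain ⟨k, rfl⟩ : ∃ k', k = k' + 1 := ⟨k - 1, by omega⟩
    rw [hrec k j hj]
    have e1 := z3 (k + 1) (by omega) j hj
    have e2 := z4 (k + 1) (by omega) j hj
    simp only at e1 e2
    rw [e1, e2, add_zero]

lemma vander (u : ℕ) : ∀ (n d : ℕ),
    ∑ j ∈ range (n + 1), (j.choose d : ℝ) * ((n - j).choose u : ℝ) =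
      ((n + 1).choose (d + u + 1) : ℝ) := by
  induction u with
  | zero =>
    intro n d
    simp only [Nat.choose_zero_right, Nat.cast_one, mul_one, add_zero]
    exact sum_choose (n + 1) d
  | succ u ih =>
    intro n
    induction n with
    | zero =>
      intro d
      rw [Finset.sum_range_one]
      have h1 : (0 - 0).choose (u + 1) = 0 := by simp
      have h2 : (0 + 1).choose (d + (u + 1) + 1) = 0 := Nat.choose_eq_zero_of_lt (by omega)
      rw [h1, h2, Nat.cast_zero, mul_zero]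
    | succ n ihn =>
      intro d
      rw [Finset.sum_range_succ]
      have h1 : ∀ j ∈ range (n + 1), (j.choose d : ℝ) * ((n + 1 - j).choose (u + 1) : ℝ) =
          (j.choose d : ℝ) * ((n - j).choose u : ℝ) +
          (j.choose d : ℝ) * ((n - j).choose (u + 1) : ℝ) := by
        intro j hj
        have : n + 1 - j = (n - j) + 1 := by have := Finset.mem_range.1 hj; omega
        rw [this, Nat.choose_succ_succ]
        push_cast
        ring
      rw [Finset.sum_congr rfl h1, Finset.sum_add_distrib, ih, ihn]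
      simp only [Nat.sub_self, Nat.choose_zero_succ, Nat.cast_zero, mul_zero, add_zero]
      rw [show d + (u + 1) + 1 = (d + u + 1) + 1 by ring, Nat.choose_succ_succ (n + 1) (d + u + 1)]
      push_cast
      ring

/-- the limit is positive when the counts are eventually positive -/
theorem dd_limit_pos (I : Finset ℕ) (hI : ∀ᶠ n in atTop, 0 < dd I n) : ∃ L : ℝ, 0 < L ∧
    Tendsto (fun n => (dd I n : ℝ) / (n.factorial * a n)) atTop (𝓝 L) := by
  obtain ⟨L, hL⟩ := dd_limit I
  refine ⟨L, ?_, hL⟩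
  obtain ⟨s, hs0, hs⟩ := a_ratio
  have h0 : 0 ∉ I := by
    intro h0
    obtain ⟨n, hn⟩ := (hI.and (eventually_ge_atTop 1)).exists
    obtain ⟨n, rfl⟩ : ∃ n', n = n' + 1 := ⟨n - 1, by omega⟩
    rw [dd_succ, if_pos h0] at hn
    exact absurd hn.1 (lt_irrefl _)
  have hdd : ∀ n, (dd I (n + 1) : ℝ) = ∑ i ∈ range (n + 1), Ph (chk I false 1) n i := by
    intro n
    rw [dd_succ, if_neg h0]
    push_cast
    rfl
  rcases dich I (I.sup id + 1) 1 false (by omega) with h | h
  · obtain ⟨c, d, u, hc, h⟩ := h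
    have hlow : ∀ n, d + u ≤ n → c / (d + u + 1).factorial * (a (n + 1 - (d + u + 1)) / a (n + 1)) ≤
        (dd I (n + 1) : ℝ) / ((n + 1).factorial * a (n + 1)) := by
      intro n hn
      have e1 : c * ((n + 1).choose (d + u + 1) : ℝ) * T (n - d - u) ≤ (dd I (n + 1) : ℝ) := by
        rw [hdd, ← vander u n d]
        simp only [Finset.mul_sum, Finset.sum_mul]
        refine Finset.sum_le_sum fun j hj => ?_
        refine le_trans (le_of_eq ?_) (h n j (by have := Finset.mem_range.1 hj; omega))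
        ring
      have hpos : 0 < ((n + 1).factorial : ℝ) * a (n + 1) := mul_pos (by positivity) (a_pos _)
      rw [le_div_iff₀ hpos]
      refine le_trans (le_of_eq ?_) e1
      have e2 : ((n + 1).factorial : ℝ) = (n + 1).choose (d + u + 1) * (d + u + 1).factorial *
          (n + 1 - (d + u + 1)).factorial := by
        exact_mod_cast (Nat.choose_mul_factorial_mul_factorial (show d + u + 1 ≤ n + 1 by omega)).symm
      rw [e2, T_eq, show n + 1 - (d + u + 1) = n - d - u by omega]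
      have := (a_pos (n + 1)).ne'
      have h5 : ((d + u + 1).factorial : ℝ) ≠ 0 := by positivity
      field_simp
    have hlim := ((ratio_pow_tendsto hs (d + u + 1)).const_mul (c / (d + u + 1).factorial))
    have hlim1 := (tendsto_add_atTop_iff_nat 1).2 hlim
    have hL1 := (tendsto_add_atTop_iff_nat 1).2 hL
    have hle : c / (d + u + 1).factorial * s ^ (d + u + 1) ≤ L := by
      refine le_of_tendsto_of_tendsto hlim1 hL1 ?_
      filter_upwards [eventually_ge_atTop (d + u)] with n hn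
      exact hlow n hn
    refine lt_of_lt_of_le ?_ hle
    positivity
  · exfalso
    obtain ⟨K, h⟩ := h
    obtain ⟨n, hn1, hn2⟩ := (hI.and (eventually_ge_atTop (K + 1))).exists
    obtain ⟨n, rfl⟩ : ∃ n', n = n' + 1 := ⟨n - 1, by omega⟩
    have h1 : (dd I (n + 1) : ℝ) = 0 := by
      rw [hdd]
      refine Finset.sum_eq_zero fun i hi => ?_
      exact h n (by omega) i (by have := Finset.mem_range.1 hi; omega)
    have h2 : dd I (n + 1) = 0 := by exact_mod_cast h1
    omega

/-- The ratio of two eventually positive double descent counts has a positive limit. -/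
theorem ratio_limit (I J : Finset ℕ) (hI : ∀ᶠ n in atTop, 0 < dd I n)
    (hJ : ∀ᶠ n in atTop, 0 < dd J n) : ∃ L : ℝ, 0 < L ∧
    Tendsto (fun n => (dd I n : ℝ) / (dd J n : ℝ)) atTop (𝓝 L) := by
  obtain ⟨L1, h1, h1'⟩ := dd_limit_pos I hI
  obtain ⟨L2, h2, h2'⟩ := dd_limit_pos J hJ
  refine ⟨L1 / L2, div_pos h1 h2, ?_⟩
  refine (h1'.div h2' h2.ne').congr fun n => ?_
  have h3 : (n.factorial : ℝ) * a n ≠ 0 := (mul_pos (by positivity) (a_pos n)).ne'
  rw [Pi.div_apply, div_div_div_cancel_right₀ h3]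

end Pool.Agent.Q284.DD
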